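import Mathlib

/-!
# Blaschke products: basic facts
-/

set_option autoImplicit false

open Filter Topology
open scoped ComplexConjugate

namespace Q73.Bl

/-- the Blaschke factor of a nonzero point `a` of the disc -/
noncomputable def bf (a z : ℂ) : ℂ := (‖a‖ : ℂ) / a * ((a - z) / (1 - conj a * z))

/-- the factor of an arbitrary point of the disc -/
noncomputable def gf (a z : ℂ) : ℂ := if a = 0 then z else bf a z

theorem den_ne {a z : ℂ} (ha : ‖a‖ < 1) (hz : ‖z‖ < 1) : 1 - conj a * z ≠ 0 := by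
  intro h
  have h1 : conj a * z = 1 := by linear_combination -h
  have h2 := congrArg norm h1
  rw [norm_mul, Complex.norm_conj, norm_one] at h2
  nlinarith [norm_nonneg a, norm_nonneg z]

theorem norm_gf {a z : ℂ} (ha : ‖a‖ < 1) (hz : ‖z‖ < 1) :
    ‖gf a z‖ ^ 2 * ‖1 - conj a * z‖ ^ 2 = ‖1 - conj a * z‖ ^ 2 - (1 - ‖a‖ ^ 2) * (1 - ‖z‖ ^ 2) := by
  have hid : ‖a - z‖ ^ 2 = ‖1 - conj a * z‖ ^ 2 - (1 - ‖a‖ ^ 2) * (1 - ‖z‖ ^ 2) := by
    simp only [← Complex.normSq_eq_norm_sq, Complex.normSq_apply, Complex.sub_re, Complex.sub_im,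
      Complex.mul_re, Complex.mul_im, Complex.conj_re, Complex.conj_im, Complex.one_re,
      Complex.one_im]
    ring
  have hd := norm_pos_iff.2 (den_ne ha hz)
  unfold gf
  split_ifs with h
  · subst h
    simp
  · rw [← hid, bf, norm_mul, norm_div, norm_div, Complex.norm_real, norm_norm,
      div_self (norm_ne_zero_iff.2 h), one_mul, div_pow, div_mul_cancel₀ _ (by positivity)]

theorem norm_den_le {a z : ℂ} (ha : ‖a‖ < 1) (hz : ‖z‖ < 1) : ‖1 - conj a * z‖ ≤ 2 := by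
  calc ‖1 - conj a * z‖ ≤ ‖(1 : ℂ)‖ + ‖conj a * z‖ := norm_sub_le _ _
    _ ≤ 1 + 1 := by
      rw [norm_one, norm_mul, Complex.norm_conj]
      nlinarith [norm_nonneg a, norm_nonneg z]
    _ = 2 := by norm_num

theorem gf_sq_le {a z : ℂ} (ha : ‖a‖ < 1) (hz : ‖z‖ < 1) :
    ‖gf a z‖ ^ 2 ≤ 1 - (1 - ‖a‖ ^ 2) * (1 - ‖z‖ ^ 2) / 4 := by
  have h := norm_gf ha hz
  have hd := norm_pos_iff.2 (den_ne ha hz)
  have hd2 := norm_den_le ha hz
  set D := ‖1 - conj a * z‖ with hD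
  have hD2 : D ^ 2 ≤ 4 := by nlinarith
  have hD0 : 0 < D ^ 2 := by positivity
  have h1 : 0 ≤ (1 - ‖a‖ ^ 2) * (1 - ‖z‖ ^ 2) := by
    apply mul_nonneg <;> nlinarith [norm_nonneg a, norm_nonneg z]
  have h2 : ‖gf a z‖ ^ 2 = 1 - (1 - ‖a‖ ^ 2) * (1 - ‖z‖ ^ 2) / D ^ 2 := by
    field_simp
    linarith
  rw [h2]
  have h3 : (1 - ‖a‖ ^ 2) * (1 - ‖z‖ ^ 2) / 4 ≤ (1 - ‖a‖ ^ 2) * (1 - ‖z‖ ^ 2) / D ^ 2 :=
    div_le_div_of_nonneg_left h1 hD0 hD2
  linarith

theorem gf_le_one {a z : ℂ} (ha : ‖a‖ < 1) (hz : ‖z‖ < 1) : ‖gf a z‖ ≤ 1 := by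
  have h := gf_sq_le ha hz
  have h1 : 0 ≤ (1 - ‖a‖ ^ 2) * (1 - ‖z‖ ^ 2) := by
    apply mul_nonneg <;> nlinarith [norm_nonneg a, norm_nonneg z]
  nlinarith [norm_nonneg (gf a z)]

theorem gf_lt_one {a z : ℂ} (ha : ‖a‖ < 1) (hz : ‖z‖ < 1) : ‖gf a z‖ < 1 := by
  have h := gf_sq_le ha hz
  have h1 : 0 < (1 - ‖a‖ ^ 2) * (1 - ‖z‖ ^ 2) := by
    apply mul_pos <;> nlinarith [norm_nonneg a, norm_nonneg z]
  nlinarith [norm_nonneg (gf a z)]

theorem one_sub_gf {a z : ℂ} (ha : ‖a‖ < 1) (hz : ‖z‖ < 1) :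
    (1 - ‖a‖) * (1 - ‖z‖) ≤ 8 * (1 - ‖gf a z‖) := by
  have h := gf_sq_le ha hz
  have h0 := gf_le_one ha hz
  have ha0 := norm_nonneg a
  have hz0 := norm_nonneg z
  have h2 : (1 - ‖a‖) * (1 - ‖z‖) ≤ (1 - ‖a‖ ^ 2) * (1 - ‖z‖ ^ 2) := by
    apply mul_le_mul <;> nlinarith
  have h3 : 1 - ‖gf a z‖ ^ 2 ≤ 2 * (1 - ‖gf a z‖) := by nlinarith [norm_nonneg (gf a z)]
  linarith

theorem gf_eq_zero {a z : ℂ} (ha : ‖a‖ < 1) (hz : ‖z‖ < 1) (h : gf a z = 0) : z = a := by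
  unfold gf at h
  split_ifs at h with h0
  · rw [h, h0]
  · rw [bf, mul_eq_zero, div_eq_zero_iff, div_eq_zero_iff] at h
    rcases h with (h | h) | (h | h)
    · exact absurd (by simpa using h) h0
    · exact absurd h h0
    · exact (sub_eq_zero.1 h).symm
    · exact absurd h (den_ne ha hz)

theorem gf_sub_one {a z : ℂ} (ha : ‖a‖ < 1) (hz : ‖z‖ < 1) :
    ‖gf a z - 1‖ ≤ (1 - ‖a‖) * (2 / (1 - ‖z‖)) := by
  have hz1 : 0 < 1 - ‖z‖ := by linarith
  have ha0 := norm_nonneg a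
  have hz0 := norm_nonneg z
  unfold gf
  split_ifs with h
  · subst h
    rw [norm_zero, sub_zero, one_mul, le_div_iff₀ hz1]
    have : ‖z - 1‖ ≤ ‖z‖ + 1 := by
      have := norm_sub_le z 1
      rwa [norm_one] at this
    nlinarith [norm_nonneg (z - 1)]
  · have hd := den_ne ha hz
    have hdn : 1 - ‖z‖ ≤ ‖1 - conj a * z‖ := by
      have h1 := norm_sub_norm_le (1 : ℂ) (conj a * z)
      rw [norm_one, norm_mul, Complex.norm_conj] at h1
      nlinarith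
    have hcc : a * conj a = (‖a‖ : ℂ) ^ 2 := by
      rw [Complex.mul_conj, Complex.normSq_eq_norm_sq]
      push_cast
      rfl
    have e : bf a z - 1 = -(1 - (‖a‖ : ℂ)) * ((a + (‖a‖ : ℂ) * z) / a) / (1 - conj a * z) := by
      unfold bf
      have hDz : 1 - conj a * z = (a - (‖a‖ : ℂ) ^ 2 * z) / a := by
        rw [← hcc]
        field_simp
      have hD2 : a - (‖a‖ : ℂ) ^ 2 * z ≠ 0 := by
        intro h3
        rw [h3, zero_div] at hDz
        exact hd hDz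
      rw [hDz]
      field_simp
      ring
    rw [e, norm_div, norm_mul, norm_neg]
    have h2 : ‖(1 : ℂ) - (‖a‖ : ℂ)‖ = 1 - ‖a‖ := by
      rw [← Complex.ofReal_one, ← Complex.ofReal_sub, Complex.norm_real, Real.norm_eq_abs,
        abs_of_pos (by linarith)]
    have han : 0 < ‖a‖ := norm_pos_iff.2 h
    have h3 : ‖(a + (‖a‖ : ℂ) * z) / a‖ ≤ 2 := by
      rw [norm_div, div_le_iff₀ han]
      calc ‖a + (‖a‖ : ℂ) * z‖ ≤ ‖a‖ + ‖(‖a‖ : ℂ) * z‖ := norm_add_le _ _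
        _ = ‖a‖ + ‖a‖ * ‖z‖ := by rw [norm_mul, Complex.norm_real, norm_norm]
        _ ≤ 2 * ‖a‖ := by nlinarith
    rw [h2, mul_div_assoc]
    refine mul_le_mul_of_nonneg_left ?_ (by linarith)
    calc ‖(a + (‖a‖ : ℂ) * z) / a‖ / ‖1 - conj a * z‖ ≤ 2 / ‖1 - conj a * z‖ := by
          gcongr
      _ ≤ 2 / (1 - ‖z‖) := div_le_div_of_nonneg_left (by norm_num) hz1 hdn

theorem continuousOn_gf {a : ℂ} (ha : ‖a‖ < 1) {r : ℝ} (hr : r < 1) :
    ContinuousOn (gf a) {z | ‖z‖ < r} := by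
  unfold gf
  split_ifs with h
  · exact continuousOn_id
  · unfold bf
    refine continuousOn_const.mul (ContinuousOn.div (by fun_prop) (by fun_prop) ?_)
    intro z hz
    exact den_ne ha (lt_trans hz hr)

section prod

variable {ι : Type} {a : ι → ℂ}

theorem summable_sub_one (ha : ∀ i, ‖a i‖ < 1) (hs : Summable fun i => 1 - ‖a i‖) {z : ℂ}
    (hz : ‖z‖ < 1) : Summable fun i => ‖gf (a i) z - 1‖ :=
  (hs.mul_right _).of_nonneg_of_le (fun _ => norm_nonneg _) fun i => gf_sub_one (ha i) hz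

theorem multipliable_gf (ha : ∀ i, ‖a i‖ < 1) (hs : Summable fun i => 1 - ‖a i‖) {z : ℂ}
    (hz : ‖z‖ < 1) : Multipliable fun i => gf (a i) z := by
  have := multipliable_one_add_of_summable (summable_sub_one ha hs hz)
  simpa using this

theorem tprod_gf_ne_zero (ha : ∀ i, ‖a i‖ < 1) (hs : Summable fun i => 1 - ‖a i‖) {z : ℂ}
    (hz : ‖z‖ < 1) (hne : ∀ i, z ≠ a i) : ∏' i, gf (a i) z ≠ 0 := by
  have := tprod_one_add_ne_zero_of_summable (f := fun i => gf (a i) z - 1) (fun i h => by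
    rw [add_sub_cancel] at h
    exact hne i (gf_eq_zero (ha i) hz h)) (summable_sub_one ha hs hz)
  simpa using this

theorem norm_tprod_gf (ha : ∀ i, ‖a i‖ < 1) (hs : Summable fun i => 1 - ‖a i‖) {z : ℂ}
    (hz : ‖z‖ < 1) : ‖∏' i, gf (a i) z‖ = ∏' i, ‖gf (a i) z‖ :=
  (multipliable_gf ha hs hz).norm_tprod

theorem hasProd_norm (ha : ∀ i, ‖a i‖ < 1) (hs : Summable fun i => 1 - ‖a i‖) {z : ℂ}
    (hz : ‖z‖ < 1) : HasProd (fun i => ‖gf (a i) z‖) ‖∏' i, gf (a i) z‖ :=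
  (multipliable_gf ha hs hz).hasProd.norm

/-- a partial product dominates the whole product -/
theorem norm_tprod_le_prod (ha : ∀ i, ‖a i‖ < 1) (hs : Summable fun i => 1 - ‖a i‖) {z : ℂ}
    (hz : ‖z‖ < 1) (s : Finset ι) : ‖∏' i, gf (a i) z‖ ≤ ∏ i ∈ s, ‖gf (a i) z‖ := by
  refine le_of_tendsto (hasProd_norm ha hs hz) ?_
  filter_upwards [eventually_ge_atTop s] with t ht
  exact Finset.prod_le_prod_of_subset_of_le_one ht (fun i _ => norm_nonneg _)
    (fun i _ _ => gf_le_one (ha i) hz)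

theorem continuousOn_tprod_gf (ha : ∀ i, ‖a i‖ < 1) (hs : Summable fun i => 1 - ‖a i‖) :
    ContinuousOn (fun z => ∏' i, gf (a i) z) {z | ‖z‖ < 1} := by
  intro z hz
  have hz' : ‖z‖ < 1 := hz
  obtain ⟨r, hr1, hr2⟩ := exists_between hz'
  have hopen : IsOpen {w : ℂ | ‖w‖ < r} := isOpen_lt continuous_norm continuous_const
  have h := Summable.hasProdLocallyUniformlyOn_one_add (K := {w : ℂ | ‖w‖ < r})
    (f := fun i w => gf (a i) w - 1) (u := fun i => (1 - ‖a i‖) * (2 / (1 - r))) hopen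
    (hs.mul_right _) (Eventually.of_forall fun i w hw => ?_) (fun i => ?_)
  · have hc := TendstoLocallyUniformlyOn.continuousOn h (Frequently.of_forall fun t => ?_)
    · have := hc.continuousAt (hopen.mem_nhds hr1)
      simp only [add_sub_cancel] at this
      exact this.continuousWithinAt
    · refine continuousOn_finsetProd _ fun i _ => ?_
      exact continuousOn_const.add ((continuousOn_gf (ha i) hr2).sub continuousOn_const)
  · have hw' : ‖w‖ < r := hw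
    refine (gf_sub_one (ha i) (hw'.trans hr2)).trans ?_
    have h1 : 0 ≤ 1 - ‖a i‖ := by linarith [ha i]
    refine mul_le_mul_of_nonneg_left ?_ h1
    exact div_le_div_of_nonneg_left (by norm_num) (by linarith) (by linarith)
  · exact (continuousOn_gf (ha i) hr2).sub continuousOn_const

end prod

end Q73.Bl
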