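import Pool.Agent.Q73.Bl.Basic

/-!
# Composition of Blaschke products: the main lemma
-/

set_option autoImplicit false

open Filter Topology
open scoped ComplexConjugate

namespace Q73.Bl

/-- Blaschke products in a form in which the zero at the origin plays no special role
(constants of modulus one are allowed) -/
def GB (B : ℂ → ℂ) : Prop :=
  ∃ (c : ℂ) (ι : Type) (a : ι → ℂ), ‖c‖ = 1 ∧ (∀ i, ‖a i‖ < 1) ∧ Summable (fun i => 1 - ‖a i‖) ∧
    ∀ z, ‖z‖ < 1 → B z = c * ∏' i, gf (a i) z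

theorem GB.continuousOn {B : ℂ → ℂ} (h : GB B) : ContinuousOn B {z | ‖z‖ < 1} := by
  obtain ⟨c, ι, a, hc, ha, hs, hB⟩ := h
  exact (continuousOn_const.mul (continuousOn_tprod_gf ha hs)).congr fun z hz => hB z hz

theorem GB.norm_le {B : ℂ → ℂ} (h : GB B) {z : ℂ} (hz : ‖z‖ < 1) : ‖B z‖ ≤ 1 := by
  obtain ⟨c, ι, a, hc, ha, hs, hB⟩ := h
  rw [hB z hz, norm_mul, hc, one_mul]
  simpa using norm_tprod_le_prod ha hs hz ∅

theorem GB.norm_lt {B : ℂ → ℂ} (h : GB B) (hne : ∃ z w, ‖z‖ < 1 ∧ ‖w‖ < 1 ∧ B z ≠ B w) {z : ℂ}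
    (hz : ‖z‖ < 1) : ‖B z‖ < 1 := by
  obtain ⟨c, ι, a, hc, ha, hs, hB⟩ := h
  rcases isEmpty_or_nonempty ι with hι | ⟨⟨i⟩⟩
  · obtain ⟨z, w, hz, hw, hzw⟩ := hne
    exact absurd (by rw [hB z hz, hB w hw]; simp) hzw
  · rw [hB z hz, norm_mul, hc, one_mul]
    refine lt_of_le_of_lt (norm_tprod_le_prod ha hs hz {i}) ?_
    simpa using gf_lt_one (ha i) hz

theorem GB.countable_zeros {B : ℂ → ℂ} (h : GB B) : {z : ℂ | ‖z‖ < 1 ∧ B z = 0}.Countable := by
  obtain ⟨c, ι, a, hc, ha, hs, hB⟩ := h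
  have hcount : Countable ι := by
    have h1 := hs.countable_support
    have h2 : Function.support (fun i => 1 - ‖a i‖) = Set.univ := by
      ext i
      simp only [Function.mem_support, Set.mem_univ, iff_true]
      linarith [ha i]
    rw [h2] at h1
    exact Set.countable_univ_iff.1 h1
  refine (Set.countable_range a).mono ?_
  rintro z ⟨hz, hz0⟩
  by_contra hne
  rw [hB z hz] at hz0
  rcases mul_eq_zero.1 hz0 with h0 | h0
  · rw [h0, norm_zero] at hc
    exact zero_ne_one hc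
  · refine tprod_gf_ne_zero ha hs hz (fun i hi => hne ⟨i, hi.symm⟩) h0

/-- sum of the `1 - |α|` in terms of the value of the product at a point -/
theorem sum_le_of_prod {κ : Type} {α : κ → ℂ} (hα : ∀ k, ‖α k‖ < 1)
    (hs : Summable fun k => 1 - ‖α k‖) {z : ℂ} (hz : ‖z‖ < 1) {y : ℝ} (hy : 0 < y)
    (hyp : y = ‖∏' k, gf (α k) z‖) :
    ∑' k, (1 - ‖α k‖) ≤ 8 / (1 - ‖z‖) * ((1 - y) / y) := by
  have hz1 : 0 < 1 - ‖z‖ := by linarith
  refine hs.tsum_le_of_sum_le fun s => ?_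
  have h1 : y ≤ ∏ k ∈ s, ‖gf (α k) z‖ := by
    rw [hyp]
    exact norm_tprod_le_prod hα hs hz s
  have h2 : ∏ k ∈ s, ‖gf (α k) z‖ ≤ ∏ k ∈ s, Real.exp (-(1 - ‖gf (α k) z‖)) := by
    refine Finset.prod_le_prod (fun _ _ => norm_nonneg _) fun k _ => ?_
    have := Real.add_one_le_exp (-(1 - ‖gf (α k) z‖))
    linarith
  rw [← Real.exp_sum] at h2
  have h3 : Real.log y ≤ ∑ k ∈ s, -(1 - ‖gf (α k) z‖) := by
    rw [← Real.log_exp (∑ k ∈ s, -(1 - ‖gf (α k) z‖))]
    exact Real.log_le_log hy (h1.trans h2)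
  have h4 : 1 - y⁻¹ ≤ Real.log y := Real.one_sub_inv_le_log_of_pos hy
  have h5 : ∑ k ∈ s, (1 - ‖gf (α k) z‖) ≤ (1 - y) / y := by
    rw [Finset.sum_neg_distrib] at h3
    have : (1 - y) / y = y⁻¹ - 1 := by field_simp
    linarith
  have h6 : ∑ k ∈ s, (1 - ‖α k‖) ≤ ∑ k ∈ s, 8 / (1 - ‖z‖) * (1 - ‖gf (α k) z‖) := by
    refine Finset.sum_le_sum fun k _ => ?_
    rw [div_mul_eq_mul_div, le_div_iff₀ hz1]
    exact one_sub_gf (hα k) hz
  refine h6.trans ?_
  rw [← Finset.mul_sum]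
  exact mul_le_mul_of_nonneg_left h5 (by positivity)

/-- **Main lemma**: if `B` is a Blaschke product, `C` maps the disc into itself, each of the
functions `gf b ∘ C` is a Blaschke product, and `B ∘ C` does not vanish identically, then `B ∘ C`
is a Blaschke product. -/
theorem comp_GB {B C : ℂ → ℂ} (hB : GB B) (hC : ∀ z, ‖z‖ < 1 → ‖C z‖ < 1)
    (hT : ∀ b : ℂ, ‖b‖ < 1 → GB fun z => gf b (C z)) {z₀ : ℂ} (hz₀ : ‖z₀‖ < 1)
    (hne : B (C z₀) ≠ 0) : GB fun z => B (C z) := by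
  obtain ⟨c₀, ι, a, hc₀, ha, hs, hform⟩ := hB
  choose c κ α hc hα hsα hfα' using fun i : ι => hT (a i) (ha i)
  have hfα : ∀ i z, ‖z‖ < 1 → gf (a i) (C z) = c i * ∏' k, gf (α i k) z := hfα'
  -- the value at `z₀`
  have hw : ‖C z₀‖ < 1 := hC z₀ hz₀
  set δ := ‖∏' i, gf (a i) (C z₀)‖ with hδ
  have hne' : ∏' i, gf (a i) (C z₀) ≠ 0 := by
    intro h
    rw [hform _ hw, h, mul_zero] at hne
    exact hne rfl
  have hδ0 : 0 < δ := norm_pos_iff.2 hne'
  set y : ι → ℝ := fun i => ‖gf (a i) (C z₀)‖ with hy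
  have hyδ : ∀ i, δ ≤ y i := fun i => by
    have := norm_tprod_le_prod ha hs hw {i}
    simpa using this
  have hyk : ∀ i, y i = ‖∏' k, gf (α i k) z₀‖ := fun i => by
    rw [hy]
    simp only
    rw [hfα i z₀ hz₀, norm_mul, hc, one_mul]
  have hy1 : ∀ i, y i ≤ 1 := fun i => gf_le_one (ha i) hw
  -- all the zeros
  set β : (Σ i, κ i) → ℂ := fun p => α p.1 p.2 with hβ
  have hβ1 : ∀ p, ‖β p‖ < 1 := fun p => hα _ _
  have hz1 : 0 < 1 - ‖z₀‖ := by linarith
  have hsum : Summable fun p => 1 - ‖β p‖ := by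
    rw [summable_sigma_of_nonneg (fun p => by linarith [hβ1 p])]
    refine ⟨fun i => hsα i, ?_⟩
    have h1 : Summable fun i => 8 / (1 - ‖z₀‖) * ((1 - y i) / δ) := by
      refine Summable.mul_left _ (Summable.div_const ?_ _)
      refine (summable_sub_one ha hs hw).of_nonneg_of_le (fun i => by linarith [hy1 i]) fun i => ?_
      have h2 := norm_sub_norm_le (1 : ℂ) (gf (a i) (C z₀))
      rw [norm_one, norm_sub_rev] at h2
      exact h2
    refine h1.of_nonneg_of_le (fun i => tsum_nonneg fun k => by linarith [hα i k]) fun i => ?_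
    refine (sum_le_of_prod (hα i) (hsα i) hz₀ (lt_of_lt_of_le hδ0 (hyδ i)) (hyk i)).trans ?_
    refine mul_le_mul_of_nonneg_left ?_ (by positivity)
    exact div_le_div_of_nonneg_left (by linarith [hy1 i]) hδ0 (hyδ i)
  -- the two products
  have hP : ∀ z, ‖z‖ < 1 → HasProd (fun i => ∏' k, gf (α i k) z) (∏' p, gf (β p) z) :=
    fun z hz => (multipliable_gf hβ1 hsum hz).hasProd.sigma
      fun i => (multipliable_gf (hα i) (hsα i) hz).hasProd
  have hF : ∀ z, ‖z‖ < 1 → HasProd (fun i => gf (a i) (C z)) (∏' i, gf (a i) (C z)) :=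
    fun z hz => (multipliable_gf ha hs (hC z hz)).hasProd
  have hci : ∀ i, c i ≠ 0 := fun i h => by
    have := hc i
    rw [h, norm_zero] at this
    exact zero_ne_one this
  set u := (∏' p, gf (β p) z₀) / (∏' i, gf (a i) (C z₀)) with hu
  have hU : HasProd (fun i => (c i)⁻¹) u := by
    have h1 := (hP z₀ hz₀).div₀ (hF z₀ hz₀) hne'
    have e : (fun i => (c i)⁻¹) = fun i => (∏' k, gf (α i k) z₀) / gf (a i) (C z₀) := ?_
    · rw [e]
      exact h1
    funext i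
    have h2 := hfα i z₀ hz₀
    have h3 : gf (a i) (C z₀) ≠ 0 := by
      intro h
      have := hyδ i
      rw [hy] at this
      simp only [h, norm_zero] at this
      linarith
    rw [eq_div_iff h3, h2, inv_mul_cancel_left₀ (hci i)]
  have hu1 : ‖u‖ = 1 := by
    have h1 := hU.norm
    simp only [norm_inv, hc, inv_one] at h1
    exact h1.unique hasProd_one
  have hu0 : u ≠ 0 := by
    intro h
    rw [h, norm_zero] at hu1
    exact zero_ne_one hu1
  refine ⟨c₀ / u, Σ i, κ i, β, by rw [norm_div, hc₀, hu1, div_one], hβ1, hsum, fun z hz => ?_⟩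
  have h1 := (hF z hz).mul hU
  have h2 : (fun i => gf (a i) (C z) * (c i)⁻¹) = fun i => ∏' k, gf (α i k) z := by
    funext i
    rw [hfα i z hz, mul_comm (c i), mul_assoc, mul_inv_cancel₀ (hci i), mul_one]
  rw [h2] at h1
  have h3 := h1.unique (hP z hz)
  simp only
  rw [hform _ (hC z hz), ← h3]
  field_simp

/-- the image of the disc under a nonconstant continuous map is not countable -/
theorem not_countable {C : ℂ → ℂ} (hC : ContinuousOn C {z | ‖z‖ < 1})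
    (hne : ∃ z w, ‖z‖ < 1 ∧ ‖w‖ < 1 ∧ C z ≠ C w) {S : Set ℂ} (hS : S.Countable)
    (hsub : ∀ z, ‖z‖ < 1 → C z ∈ S) : False := by
  obtain ⟨z, w, hz, hw, hzw⟩ := hne
  have hball : {z : ℂ | ‖z‖ < 1} = Metric.ball 0 1 := by
    ext z
    simp
  have hpre : IsPreconnected (C '' {z | ‖z‖ < 1}) := by
    refine IsPreconnected.image ?_ _ hC
    rw [hball]
    exact (convex_ball _ _).isPreconnected
  have hsub' : C '' {z | ‖z‖ < 1} ⊆ S := by
    rintro _ ⟨z, hz, rfl⟩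
    exact hsub z hz
  exact hzw (hS.isTotallyDisconnected _ hsub' hpre ⟨z, hz, rfl⟩ ⟨w, hw, rfl⟩)

end Q73.Bl
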