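import Pool.Agent.Q73.Bl.Comp

/-!
# Blaschke products: the two normal forms
-/

set_option autoImplicit false

open Filter Topology
open scoped ComplexConjugate

namespace Q73.Bl

theorem exists_angle {c : ℂ} (hc : ‖c‖ = 1) : ∃ θ : ℝ, c = Complex.exp (θ * Complex.I) := by
  refine ⟨c.arg, ?_⟩
  have := Complex.norm_mul_exp_arg_mul_I c
  rw [hc, Complex.ofReal_one, one_mul] at this
  exact this.symm

theorem std_to_gen {B : ℂ → ℂ} {θ : ℝ} {m : ℕ} {ι : Type} {a : ι → ℂ}
    (ha : ∀ i, a i ≠ 0 ∧ ‖a i‖ < 1) (hs : Summable fun i => 1 - ‖a i‖)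
    (hB : ∀ z, ‖z‖ < 1 → B z = Complex.exp (θ * Complex.I) * z ^ m *
      ∏' i, (‖a i‖ : ℂ) / a i * ((a i - z) / (1 - conj (a i) * z))) : GB B := by
  refine ⟨Complex.exp (θ * Complex.I), Fin m ⊕ ι, Sum.elim (fun _ => 0) a,
    Complex.norm_exp_ofReal_mul_I θ, ?_, ?_, ?_⟩
  · rintro (i | i)
    · simp
    · exact (ha i).2
  · refine Summable.sum _ ?_ ?_
    · exact (hasSum_fintype _).summable
    · exact hs
  · intro z hz
    have h1 : HasProd ((fun i => gf (Sum.elim (fun _ => (0:ℂ)) a i) z) ∘ (Sum.inl : Fin m → Fin m ⊕ ι))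
        (z ^ m) := by
      have := hasProd_fintype ((fun i => gf (Sum.elim (fun _ => (0:ℂ)) a i) z) ∘
        (Sum.inl : Fin m → Fin m ⊕ ι))
      simpa [gf] using this
    have h2 : HasProd ((fun i => gf (Sum.elim (fun _ => (0:ℂ)) a i) z) ∘ (Sum.inr : ι → Fin m ⊕ ι))
        (∏' i, gf (a i) z) := (multipliable_gf (fun i => (ha i).2) hs hz).hasProd
    rw [(h1.sum h2).tprod_eq, hB z hz, mul_assoc]
    congr 2
    refine tprod_congr fun i => ?_
    rw [gf, if_neg (ha i).1, bf]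

theorem gen_to_std {B : ℂ → ℂ} (h : GB B) :
    ∃ (θ : ℝ) (m : ℕ) (ι : Type) (_ : Countable ι) (a : ι → ℂ), (∀ i, a i ≠ 0 ∧ ‖a i‖ < 1) ∧
      Summable (fun i => 1 - ‖a i‖) ∧ ∀ z, ‖z‖ < 1 → B z = Complex.exp (θ * Complex.I) * z ^ m *
      ∏' i, (‖a i‖ : ℂ) / a i * ((a i - z) / (1 - conj (a i) * z)) := by
  obtain ⟨c, ι, a, hc, ha, hs, hB⟩ := h
  obtain ⟨θ, hθ⟩ := exists_angle hc
  have hcount : Countable ι := by
    have h1 := hs.countable_support
    have h2 : Function.support (fun i => 1 - ‖a i‖) = Set.univ := by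
      ext i
      simp only [Function.mem_support, Set.mem_univ, iff_true]
      linarith [ha i]
    rw [h2] at h1
    exact Set.countable_univ_iff.1 h1
  set s : Set ι := {i | a i = 0} with hsdef
  have hfin : s.Finite := by
    have h1 := hs.tendsto_cofinite_zero
    have h2 := h1.eventually (gt_mem_nhds zero_lt_one)
    rw [eventually_cofinite] at h2
    refine h2.subset fun i hi => ?_
    have hi' : a i = 0 := hi
    simp [hi']
  have hft : Fintype s := hfin.fintype
  refine ⟨θ, Fintype.card s, (sᶜ : Set ι), inferInstance, fun i => a i, ?_, ?_, ?_⟩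
  · intro i
    exact ⟨i.2, ha i⟩
  · exact hs.subtype _
  · intro z hz
    have h1 : HasProd ((fun i => gf (a i) z) ∘ ((↑) : s → ι)) (z ^ Fintype.card s) := by
      have := hasProd_fintype ((fun i => gf (a i) z) ∘ ((↑) : s → ι))
      have e : ∀ i : s, ((fun i => gf (a i) z) ∘ ((↑) : s → ι)) i = z := fun i => by
        have : a i = 0 := i.2
        simp [gf, this]
      rw [Finset.prod_congr rfl (fun i _ => e i), Finset.prod_const, Finset.card_univ] at this
      exact this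
    have h2 : HasProd ((fun i => gf (a i) z) ∘ ((↑) : (sᶜ : Set ι) → ι))
        (∏' i : (sᶜ : Set ι), gf (a i) z) :=
      (multipliable_gf (a := fun i : (sᶜ : Set ι) => a i) (fun i => ha i) (hs.subtype _) hz).hasProd
    rw [hB z hz, (h1.mul_compl h2).tprod_eq, ← hθ, mul_assoc]
    congr 2
    refine tprod_congr fun i => ?_
    have : a i ≠ 0 := i.2
    rw [gf, if_neg this, bf]

theorem gf_eq_aut {b : ℂ} : ∃ φ : ℝ, ∀ w : ℂ,
    gf b w = Complex.exp (φ * Complex.I) * ((w - b) / (1 - conj b * w)) := by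
  by_cases hb : b = 0
  · refine ⟨0, fun w => ?_⟩
    subst hb
    simp [gf]
  · have h1 : ‖-((‖b‖ : ℂ) / b)‖ = 1 := by
      rw [norm_neg, norm_div, Complex.norm_real, norm_norm, div_self (norm_ne_zero_iff.2 hb)]
    obtain ⟨φ, hφ⟩ := exists_angle h1
    refine ⟨φ, fun w => ?_⟩
    rw [gf, if_neg hb, bf, ← hφ]
    rw [neg_mul, ← mul_neg, ← neg_div, neg_sub]

end Q73.Bl
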